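import Mathlib
import Pool.Agent.R867.H.DensH

/-!
# Rational points of general hypersurfaces of low multidegree

Let `X` be a hypersurface of multidegree `(d₁, …, d_r)` in `ℙ^{n₁} × ⋯ × ℙ^{n_r}` over a field `k`
of characteristic zero, for instance a number field. We suppose that `1 ≤ d_j ≤ 3` and
`d_j ≤ n_j + 1` for all `j` and `d_j ≤ n_j` for some `j`. Suppose that `X` is geometrically
irreducible and general: the coefficients of its equation are not a zero of a certain nonzero
polynomial `Φ` with rational coefficients which depends only on the `n_j` and the `d_j`. Then there is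
a nonempty open subset `V` of `X` such that for all extensions `E` of `k`: if `V` has an `E`-rational
point, then `X` is unirational over `E`, and the `E`-rational points of `X` are Zariski dense.

So over all number fields `E` containing `k` simultaneously, either the `E`-rational points of `X` are
in the proper closed subset `X \ V`, or they are dense in `X`. No point with special properties, no
section or multisection of the fibrations of `X` and no extension of `E` is needed.

Examples are the hypersurfaces of bidegree `(2, 3)` in `ℙ² × ℙ²` (conic bundles over the plane), of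
multidegree `(2, 3, …, 3)` in `ℙ² × ⋯ × ℙ²`, `(2, 2, …, 2)` in `ℙ² × ℙ¹ × ⋯ × ℙ¹`, and of bidegree
`(3, 3)` in `ℙ³ × ℙ²`.

In affine coordinates `X` is given by a polynomial `f` in `N = n₁ + ⋯ + n_r` variables, in groups of
`n_j` variables, such that the degree of `f` in the variables of the group `j` is at most `d_j`.

Proof. Let `K` be the function field. A function `a` in `K` is immovable if `σ a ∈ K` for all
`k`-homomorphisms `σ : K → K(t₁, …, tₙ)`. The generic point is moved by the lines, conics, and
tangent plane sections of cubic surfaces through it, by involutions, and by the tangent maps of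
families of plane cubics, and it follows that all immovable functions are in `k`. Then a composition
of such families moves the generic point to all points of `X`, and can be specialized at the points
of a dense open subset `V`.
-/

set_option autoImplicit false

namespace Pool.Agent.Results.MP_b62148_ag.GeneralMultidegreeDensity

open MvPolynomial Pool.Agent.R867.H Pool.Agent.R867.Mov

universe u

/-- The exponents of the monomials whose degree in the variables of the group `j` is at most `d j`,
for all `j`. Here `β l` is the group of the variable `l`. -/
abbrev Exponent {N r : ℕ} (β : Fin N → Fin r) (d : Fin r → ℕ) : Type :=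
  {m : Fin N →₀ ℕ // ∀ j, ∑ l with β l = j, m l ≤ d j}

/-- The degree of `f` in the variables of the group `j` is at most `d j`, for all `j`. -/
def MultidegreeLE {N r : ℕ} (β : Fin N → Fin r) (d : Fin r → ℕ) {k : Type u} [Field k]
    (f : MvPolynomial (Fin N) k) : Prop :=
  ∀ m ∈ f.support, ∀ j, ∑ l with β l = j, m l ≤ d j

/-- The hypersurface `f = 0` is unirational over `E`: there are rational functions `P₁, …, P_N` over
`E` in some number `n` of variables such that `G(P₁, …, P_N) = 0` if and only if `f` divides `G`, for
all polynomials `G` over `E`. -/
def IsUnirational {N : ℕ} {k : Type u} [Field k] (f : MvPolynomial (Fin N) k) (E : Type u) [Field E]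
    [Algebra k E] : Prop :=
  ∃ (n : ℕ) (P : Fin N → FractionRing (MvPolynomial (Fin n) E)),
    ∀ G : MvPolynomial (Fin N) E, aeval P G = 0 ↔ map (algebraMap k E) f ∣ G

/-- The points with coordinates in `E` are Zariski dense in the hypersurface `f = 0` over `E`: for
every polynomial `G` over `E` which is not divisible by `f` there is such a point with `G ≠ 0`. -/
def IsDense {N : ℕ} {k : Type u} [Field k] (f : MvPolynomial (Fin N) k) (E : Type u) [Field E]
    [Algebra k E] : Prop :=
  ∀ G : MvPolynomial (Fin N) E, ¬ map (algebraMap k E) f ∣ G →
    ∃ e : Fin N → E, aeval e f = 0 ∧ aeval e G ≠ 0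

/-- Let the `N` variables be divided in `r` groups, and let `1 ≤ d_j ≤ 3` for `j < r`. Let `n_j` be
the number of the variables in the group `j`. Suppose that `d_j ≤ n_j + 1` for all `j` and
`d_j ≤ n_j` for at least one `j`. Then there is a nonzero polynomial `Φ` with rational coefficients
in the coefficients of the polynomials in `N` variables of degree at most `d_j` in the variables of
the group `j` with the following property. Let `k` be a field of characteristic zero, and let `f` be
such a polynomial over `k` with `Φ(f) ≠ 0` which is irreducible over the algebraic closure of `k`. Then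
there is a polynomial `g`, not divisible by `f`, such that for every extension field `E` of `k` such
that the hypersurface `f = 0` has a point with coordinates in `E` with `g ≠ 0`: the hypersurface is
unirational over `E`, and the points with coordinates in `E` are Zariski dense in it. -/
theorem result {N r : ℕ} (β : Fin N → Fin r) (d : Fin r → ℕ) (hd : ∀ j, 1 ≤ d j ∧ d j ≤ 3)
    (hn : ∀ j, d j ≤ (Finset.univ.filter fun l => β l = j).card + 1)
    (hn₀ : ∃ j, d j ≤ (Finset.univ.filter fun l => β l = j).card) :
    ∃ Φ : MvPolynomial (Exponent β d) ℚ, Φ ≠ 0 ∧
      ∀ (k : Type u) [Field k] [CharZero k] (f : MvPolynomial (Fin N) k), MultidegreeLE β d f →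
        Irreducible (map (algebraMap k (AlgebraicClosure k)) f) →
        aeval (fun m : Exponent β d => coeff (m : Fin N →₀ ℕ) f) Φ ≠ 0 →
        ∃ g : MvPolynomial (Fin N) k, ¬ f ∣ g ∧
          ∀ (E : Type u) [Field E] [Algebra k E] (c : Fin N → E),
            aeval c f = 0 → aeval c g ≠ 0 → IsUnirational f E ∧ IsDense f E := by
  obtain ⟨Φ, hΦ, hmain⟩ := core_rel.{u} (β := β) (d := d) (fun j => (hd j).1) (fun j => (hd j).2)
    hn hn₀
  have he : ∀ m : Fin N →₀ ℕ, m ∈ expo β d ↔ ∀ j, ∑ l with β l = j, m l ≤ d j :=
    fun m => mem_expo
  refine ⟨rename (Equiv.subtypeEquivRight he) Φ, fun h0 => hΦ ?_, ?_⟩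
  · exact rename_injective _ (Equiv.injective _) (h0.trans (map_zero _).symm)
  intro k _ _ f hsupp hirr hf
  rw [aeval_rename] at hf
  obtain ⟨K, _, _, ξ, hξ⟩ := exists_gp (irr_of_map hirr)
  exact main_dens hξ hirr (hmain f ξ (fun m hm => mem_expo.mpr (hsupp m hm)) hf hξ)

end Pool.Agent.Results.MP_b62148_ag.GeneralMultidegreeDensity
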