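import Pool.Agent.R867.D.Dens

/-!
# Density of rational points on varieties with a general rational point

Let `k` be a field of characteristic zero, for instance a number field, and let `X` be a variety
over `k` with function field `K`. A fibration of `X` over a base with function field `L`, an
intermediate field which is algebraically closed in `K`, is compatible with a fibration in curves
with base `L'` if `L ≤ L'`, or if the curves have genus one and their `j`-invariant is in `L`
(it does not change along the fibres of the first fibration).

Theorem. Suppose that no fibration of `X` over a positive-dimensional base is compatible with all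
the fibrations of `X` in curves of genus zero and one over `k`. Then there is a dense open subset
`V` of `X` such that for every extension `E` of `k`, for example a number field: if `V` has an
`E`-rational point, then `X` is unirational over `E`, and the `E`-rational points are Zariski dense
in `X`.

For example, let `X` have a conic fibration with base `L₀` and fibrations in curves of genus one
with bases `L i`, with `j`-invariants which are not in `L₀`, such that only the constants are in
`L₀` and in all `L i`. No section or multisection and no rational point of the generic fibres is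
supposed. This applies for instance to conic bundles over the plane.

Proof. The field `M` of immovable functions (the elements `a` of `K` such that `σ a ∈ K` for all
`k`-homomorphisms `σ : K → K(t₁, …, tₙ)`) is stable under the self-maps
`P ↦ (n + 1) P - D` of the curves of genus one; a commuting derivation and the class of Kodaira and
Spencer show that `M` is compatible with all the fibrations, so `M = k`. Then there is one
`k`-homomorphism `σ : K → K(t₁, …, tₙ)` such that `K` and `σ K` are linearly disjoint over `k`: the
rational family of rational maps moves the generic point to all points of `X`. The coefficients of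
`σ` can be specialized at all points of a dense open subset `V`, over all extensions `E` of `k`.
-/

set_option autoImplicit false

universe u

namespace Pool.Agent.Results.MP_b62148_ag.GeneralPointDensity

open Pool.Agent.R867.J Pool.Agent.R867.D

section defs

variable {k K : Type u} [Field k] [Field K] [Algebra k K]

/-- The function `a` is moved by a rational family of rational self-maps. -/
def Movable (k : Type u) {K : Type u} [Field k] [Field K] [Algebra k K] (a : K) : Prop :=
  ∃ (n : ℕ) (σ : K →ₐ[k] FractionRing (MvPolynomial (Fin n) K)),
    σ a ∉ Set.range (algebraMap K (FractionRing (MvPolynomial (Fin n) K)))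

/-- `K` is over `L` the function field of the curve `w² = Q(t)`, where `Q` is a separable
polynomial, and `L` is algebraically closed in `K`. -/
structure IsDoubleLine (L : IntermediateField k K) (t w : K) (Q : Polynomial L) : Prop where
  closed : ∀ z : K, IsAlgebraic L z → z ∈ L
  transcendental : Transcendental L t
  equation : w ^ 2 = Polynomial.aeval t Q
  generates : IntermediateField.adjoin L {t, w} = ⊤
  separable : Q.Separable

/-- `K` is the function field of a conic over `L`. -/
def IsConicFibration (L : IntermediateField k K) : Prop :=
  ∃ (t w : K) (Q : Polynomial L), IsDoubleLine L t w Q ∧ 1 ≤ Q.natDegree ∧ Q.natDegree ≤ 2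

/-- `K` is the function field of a curve of genus one over `L`, with `j`-invariant `6912 j`: either
of a curve `w² = Q(t)` with `Q` separable of degree three or four, or of a torsor under the
elliptic curve `y² = x³ + a x² + b x + c` (every smooth projective curve of genus one over `L` is a
torsor under its Jacobian). Here `modulus Q = I³ / (4 I³ - J²)` for the invariants `I` and `J` of
the binary quartic `Q`, and `IsTorsor L a b c` says that there are a finite Galois extension `K'`
of `K` and coordinates `x`, `y` of `K'` over the algebraic closure `L'` of `L` in `K'` such that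
every automorphism of `K'` over `K` acts on the point `(x, y)` as the translation by a point of the
elliptic curve with coordinates in `L'`. -/
def IsGenusOneFibration (L : IntermediateField k K) (j : K) : Prop :=
  (∃ (t w : K) (Q : Polynomial L), IsDoubleLine L t w Q ∧ 3 ≤ Q.natDegree ∧ Q.natDegree ≤ 4 ∧
    j = algebraMap L K (modulus Q)) ∨
  (∃ a b c : L, IsTorsor L a b c ∧ (∀ z : K, IsAlgebraic L z → z ∈ L) ∧
    j = algebraMap L K (modulus (Polynomial.X ^ 3 + Polynomial.C a * Polynomial.X ^ 2 +
      Polynomial.C b * Polynomial.X + Polynomial.C c)))

variable {N : ℕ}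

/-- `c` is a point with coordinates in `E` of the affine variety `X` over `k` with the generic
point `x`: it satisfies all the equations over `k` which are satisfied by `x`. -/
def IsPoint (x : Fin N → K) {E : Type u} [Field E] [Algebra k E] (c : Fin N → E) : Prop :=
  ∀ Q : MvPolynomial (Fin N) k, MvPolynomial.aeval x Q = 0 → MvPolynomial.aeval c Q = 0

/-- The points of `X` with coordinates in `E` are Zariski dense in `X`. -/
def IsDense (x : Fin N → K) (E : Type u) [Field E] [Algebra k E] : Prop :=
  ∀ G : MvPolynomial (Fin N) k, MvPolynomial.aeval x G ≠ 0 →
    ∃ e : Fin N → E, IsPoint (k := k) x e ∧ MvPolynomial.aeval e G ≠ 0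

/-- `X` is unirational over `E`: there is a rational map over `E` of an affine space to `X` whose
image over `E` has the dimension of `X`. -/
def IsUnirational (x : Fin N → K) (E : Type u) [Field E] [Algebra k E] : Prop :=
  ∃ (n d : ℕ) (P : Fin N → FractionRing (MvPolynomial (Fin n) E)) (u : Fin d → Fin N),
    IsPoint (k := k) x P ∧ Algebra.trdeg k K = d ∧ AlgebraicIndependent E (P ∘ u)

end defs

/-- Let `X` be a variety over a field `k` of characteristic zero, with function field `K` and generic
point `x`, such that every intermediate field `M ≠ k` which is algebraically closed in `K` contains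
a movable element, or is not contained in the base `L` of some conic fibration, or is not contained
in the base `L` of some fibration in curves of genus one whose modulus `j` is not in `M`.
Then for some nonempty open subset `g ≠ 0` of `X` and for all extensions `E` of `k`: if there is an
`E`-rational point in this open subset, then `X` is unirational over `E`, and the `E`-rational
points are Zariski dense in `X`. In particular there is a finite extension `E` of `k` such that the
`E`-rational points are Zariski dense in `X`. -/
theorem result (k : Type u) [Field k] [CharZero k] (K : Type u) [Field K] [Algebra k K] {N : ℕ}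
    (x : Fin N → K) (hx : IntermediateField.adjoin k (Set.range x) = ⊤)
    (h : ∀ M : IntermediateField k K, M ≠ ⊥ → (∀ z : K, IsAlgebraic M z → z ∈ M) →
      (∃ a ∈ M, Movable k a) ∨
      (∃ L : IntermediateField k K, IsConicFibration L ∧ ¬ M ≤ L) ∨
      (∃ (L : IntermediateField k K) (j : K), IsGenusOneFibration L j ∧ ¬ M ≤ L ∧ j ∉ M)) :
    (∃ g : MvPolynomial (Fin N) k, MvPolynomial.aeval x g ≠ 0 ∧
      ∀ (E : Type u) [Field E] [Algebra k E] (c : Fin N → E), IsPoint (k := k) x c →
        MvPolynomial.aeval c g ≠ 0 → IsUnirational (k := k) x E ∧ IsDense (k := k) x E) ∧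
    ∃ E : IntermediateField k (AlgebraicClosure k), FiniteDimensional k E ∧
      IsDense (k := k) x E := by
  have hcK : CharZero K := charZero_of_injective_algebraMap (algebraMap k K).injective
  have hmov : ∀ a : K, a ∉ Set.range (algebraMap k K) → Pool.Agent.R867.Mov.Movable k a := by
    refine all_movable fun M hM hMc => ?_
    rcases h M hM hMc with h1 | ⟨L, ⟨t, w, Q, hL, h1, h2⟩, hML⟩ | ⟨L, j, h1 | h1, hML, hj⟩
    · exact Or.inl h1
    · exact Or.inr (Or.inl ⟨L, t, w, Q, ⟨hL.closed, ⟨hL.transcendental, hL.equation, hL.generates⟩,
        hL.separable, h1, by omega⟩, hML, Or.inl h2⟩)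
    · obtain ⟨t, w, Q, hL, h1, h2, rfl⟩ := h1
      exact Or.inr (Or.inl ⟨L, t, w, Q, ⟨hL.closed, ⟨hL.transcendental, hL.equation, hL.generates⟩,
        hL.separable, by omega, h2⟩, hML, Or.inr hj⟩)
    · obtain ⟨a, b, c, hT, hcl, rfl⟩ := h1
      exact Or.inr (Or.inr ⟨L, a, b, c, hT, hcl, hML, hj⟩)
  obtain ⟨g, hg, hmain⟩ := dens_main hx hmov
  have hpart : ∀ (E : Type u) [Field E] [Algebra k E] (c : Fin N → E), IsPoint (k := k) x c →
      MvPolynomial.aeval c g ≠ 0 → IsUnirational (k := k) x E ∧ IsDense (k := k) x E := by
    intro E _ _ c hc hcg
    obtain ⟨n, d, P, u, hd, hP, hu⟩ := hmain c hc hcg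
    refine ⟨⟨n, d, P, u, fun Q hQ => (hP Q).mp hQ, hd, hu⟩, fun G hG => ?_⟩
    have hcE : CharZero E := charZero_of_injective_algebraMap (algebraMap k E).injective
    have hG' : MvPolynomial.aeval P G ≠ 0 := fun h0 => hG ((hP G).mpr h0)
    obtain ⟨e, he, heG⟩ := dense_of_rt (fun Q hQ => (hP Q).mp hQ) hG'
    exact ⟨e, he, heG⟩
  refine ⟨⟨g, hg, hpart⟩, ?_⟩
  obtain ⟨c, hc, hcg⟩ := exists_pt_closure x hg
  obtain ⟨E, hE⟩ : ∃ E : IntermediateField k (AlgebraicClosure k),
    E = IntermediateField.adjoin k (Set.range c) := ⟨_, rfl⟩
  have hfin : FiniteDimensional k E := by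
    rw [hE]
    exact IntermediateField.finiteDimensional_adjoin fun z _ =>
      (Algebra.IsAlgebraic.isAlgebraic z).isIntegral
  have hmemE : ∀ i, c i ∈ E := fun i => by
    rw [hE]
    exact IntermediateField.subset_adjoin _ _ ⟨i, rfl⟩
  have hval : ∀ Q : MvPolynomial (Fin N) k,
      algebraMap E (AlgebraicClosure k) (MvPolynomial.aeval (fun i => (⟨c i, hmemE i⟩ : E)) Q) =
        MvPolynomial.aeval c Q := by
    intro Q
    rw [← MvPolynomial.aeval_algebraMap_apply]
    rfl
  refine ⟨E, hfin, (hpart E (fun i => ⟨c i, hmemE i⟩) (fun Q hQ => ?_) fun h0 => ?_).2⟩
  · apply (algebraMap E (AlgebraicClosure k)).injective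
    rw [hval, map_zero]
    exact hc Q hQ
  · apply hcg
    rw [← hval, h0, map_zero]

/-- The conclusion for a conic fibration and fibrations in curves of genus one whose moduli are not
functions on the base of the conic fibration. -/
theorem conic_and_genus_one (k : Type u) [Field k] [CharZero k] (K : Type u)
    [Field K] [Algebra k K] {N : ℕ} (x : Fin N → K)
    (hx : IntermediateField.adjoin k (Set.range x) = ⊤)
    {ι : Type*} (L₀ : IntermediateField k K) (L : ι → IntermediateField k K) (j : ι → K)
    (h0 : IsConicFibration L₀) (h1 : ∀ i, IsGenusOneFibration (L i) (j i))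
    (hj : ∀ i, j i ∉ L₀)
    (hinv : ∀ a : K, a ∈ L₀ → (∀ i, a ∈ L i) → a ∈ Set.range (algebraMap k K)) :
    ∃ g : MvPolynomial (Fin N) k, MvPolynomial.aeval x g ≠ 0 ∧
      ∀ (E : Type u) [Field E] [Algebra k E] (c : Fin N → E), IsPoint (k := k) x c →
        MvPolynomial.aeval c g ≠ 0 → IsUnirational (k := k) x E ∧ IsDense (k := k) x E := by
  refine (result k K x hx fun M hM _ => ?_).1
  by_cases h2 : M ≤ L₀
  · refine Or.inr (Or.inr ?_)
    by_contra hcon
    push Not at hcon
    apply hM
    rw [eq_bot_iff]
    intro a ha
    rw [IntermediateField.mem_bot]
    refine hinv a (h2 ha) fun i => ?_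
    have h3 : M ≤ L i := by
      by_contra h4
      exact hj i (h2 (hcon (L i) (j i) (h1 i) h4))
    exact h3 ha
  · exact Or.inr (Or.inl ⟨L₀, h0, h2⟩)

end Pool.Agent.Results.MP_b62148_ag.GeneralPointDensity
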