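import Pool.Agent.R867.H.Rand5

/-!
# Unirationality and dense rational points for 100% of the everywhere locally soluble hypersurfaces
of low multidegree in products of projective spaces

Let `k ≥ 2`, `n i ≥ 1` and `2 ≤ d i ≤ 3`, `d i ≤ n i + 1` for all `i < k`, and `d i ≤ n i` for at
least one `i`: the smooth hypersurfaces of multidegree `(d 0, d 1, …)` in
`ℙ^(n 0) × ℙ^(n 1) × …` are rationally connected with nef anticanonical class. Among the integral
forms `f` of this multidegree with coefficients bounded by `H` whose hypersurface `X_f` has points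
over the real numbers and over all the `p`-adic fields, a proportion tending to `1` as `H → ∞` has
the following property: for all fields `L` of characteristic zero, for example all number fields,
`X_f` is integral and unirational over `L`, and its `L`-points are Zariski dense.
-/

set_option autoImplicit false

namespace Pool.Agent.Results.MP_b62148_ag.RandomUnirational

/-- The forms of multidegree `d` in `k` blocks of variables, the block `i` having `n i + 1`
variables, whose coefficients are integers of absolute value at most `H`. -/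
def Forms {k : ℕ} (n d : Fin k → ℕ) (H : ℕ) :
    Set (MvPolynomial (Σ i : Fin k, Fin (n i + 1)) ℤ) :=
  {f | (∀ s ∈ f.support, ∀ i : Fin k, ∑ j : Fin (n i + 1), s ⟨i, j⟩ = d i) ∧
    ∀ s, |f.coeff s| ≤ (H : ℤ)}

/-- `x` represents a point over the field `L` of the hypersurface `X_f`: `f = 0` in
`ℙ^(n 0) × ℙ^(n 1) × …`: all its blocks are different from zero and `f(x) = 0`. -/
def IsPoint {k : ℕ} {n : Fin k → ℕ} {L : Type} [Field L]
    (f : MvPolynomial (Σ i : Fin k, Fin (n i + 1)) ℤ)
    (x : (Σ i : Fin k, Fin (n i + 1)) → L) : Prop :=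
  (∀ i : Fin k, (fun j : Fin (n i + 1) => x ⟨i, j⟩) ≠ 0) ∧ MvPolynomial.aeval x f = 0

/-- The hypersurface `X_f` has points over the real numbers and over all the `p`-adic fields. -/
def LocallySoluble {k : ℕ} {n : Fin k → ℕ}
    (f : MvPolynomial (Σ i : Fin k, Fin (n i + 1)) ℤ) : Prop :=
  (∃ y : (Σ i : Fin k, Fin (n i + 1)) → ℝ, IsPoint f y) ∧
    ∀ (p : ℕ) [Fact p.Prime], ∃ z : (Σ i : Fin k, Fin (n i + 1)) → ℚ_[p], IsPoint f z

/-- The form `f` with its coefficients considered as elements of the field `L`. -/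
noncomputable def formOver {k : ℕ} {n : Fin k → ℕ} (L : Type) [Field L]
    (f : MvPolynomial (Σ i : Fin k, Fin (n i + 1)) ℤ) :
    MvPolynomial (Σ i : Fin k, Fin (n i + 1)) L :=
  MvPolynomial.map (Int.castRingHom L) f

/-- `X_f` is unirational over `L`: there are polynomials `P i j` in some variables `t_1, …, t_m`
over `L` whose polynomial relations over `L` are exactly the multiples of `f`. In other words
`t ↦ ((P i 0 (t) : P i 1 (t) : …))_i` is a dominant rational map from the affine space to `X_f`. -/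
def IsUnirational {k : ℕ} {n : Fin k → ℕ} (L : Type) [Field L]
    (f : MvPolynomial (Σ i : Fin k, Fin (n i + 1)) ℤ) : Prop :=
  ∃ (m : ℕ) (P : (Σ i : Fin k, Fin (n i + 1)) → MvPolynomial (Fin m) L),
    ∀ G : MvPolynomial (Σ i : Fin k, Fin (n i + 1)) L,
      MvPolynomial.aeval P G = 0 ↔ formOver L f ∣ G

/-- The `L`-points of `X_f` are Zariski dense in `X_f`: every polynomial `G` over `L` which is not
divisible by `f` is nonzero at some point of `X_f` over `L`. -/
def IsDense {k : ℕ} {n : Fin k → ℕ} (L : Type) [Field L]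
    (f : MvPolynomial (Σ i : Fin k, Fin (n i + 1)) ℤ) : Prop :=
  ∀ G : MvPolynomial (Σ i : Fin k, Fin (n i + 1)) L, ¬ formOver L f ∣ G →
    ∃ x : (Σ i : Fin k, Fin (n i + 1)) → L, IsPoint f x ∧ MvPolynomial.aeval x G ≠ 0

/-- 100% of the everywhere locally soluble hypersurfaces of multidegree `d` in
`ℙ^(n 0) × ℙ^(n 1) × …` are integral and unirational with Zariski dense points over all fields of
characteristic zero. -/
theorem result (k : ℕ) (n d : Fin k → ℕ) (hk : 2 ≤ k) (hn : ∀ i, 1 ≤ n i)
    (hd : ∀ i, 2 ≤ d i ∧ d i ≤ 3 ∧ d i ≤ n i + 1) (hrc : ∃ i, d i ≤ n i) :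
    Filter.Tendsto (fun H : ℕ =>
      (({f | f ∈ Forms n d H ∧ LocallySoluble f ∧ ∀ (L : Type) [Field L] [CharZero L],
          Irreducible (formOver L f) ∧ IsUnirational L f ∧ IsDense L f} : Set _).ncard : ℝ) /
        (({f | f ∈ Forms n d H ∧ LocallySoluble f} : Set _).ncard : ℝ))
      Filter.atTop (nhds 1) := by
  have h := Pool.Agent.R867.H.rand_tendsto (n := n) (d := d) hk hn (fun i => (hd i).1)
    (fun i => (hd i).2.1) (fun i => (hd i).2.2) hrc
  refine h.congr (fun H => ?_)
  have he : ∀ f : MvPolynomial (Σ i : Fin k, Fin (n i + 1)) ℤ,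
      Pool.Agent.Y716.M.ElsB f ↔ LocallySoluble f := fun f => Iff.rfl
  have hu : ∀ f : MvPolynomial (Σ i : Fin k, Fin (n i + 1)) ℤ,
      (∀ (L : Type) [Field L] [CharZero L], Pool.Agent.R867.H.UniH L f) ↔
      ∀ (L : Type) [Field L] [CharZero L],
        Irreducible (formOver L f) ∧ IsUnirational L f ∧ IsDense L f := by
    intro f
    constructor
    · intro h L _ _
      obtain ⟨h1, h2, h3⟩ := h L
      refine ⟨h1, h2, fun G hG => ?_⟩
      obtain ⟨x, hx1, hx2, hx3⟩ := h3 G hG
      exact ⟨x, ⟨hx1, hx2⟩, hx3⟩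
    · intro h L _ _
      obtain ⟨h1, h2, h3⟩ := h L
      refine ⟨h1, h2, fun G hG => ?_⟩
      obtain ⟨x, ⟨hx1, hx2⟩, hx3⟩ := h3 G hG
      exact ⟨x, hx1, hx2, hx3⟩
  congr 2
  · congr 1
    ext f
    simp only [Set.mem_setOf_eq, Forms, hu, he]

end Pool.Agent.Results.MP_b62148_ag.RandomUnirational
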