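import Pool.Agent.R882.HT
import Pool.Agent.TH466.QT.Den

/-!
# Potential density for the images of towers of nondegenerate complete intersections

A tower (`Tower`, `Pool/Agent/R882/HT.lean`) is a sequence of generically finite maps
`V 0 ⇢ V 1 ⇢ ... ⇢ V k` of varieties of dimension `n ≥ 1`, where `V k` is any unirational variety and
each `V i`, `i < k`, is a component of the set of common zeros in a torus `(ℂ^*) ^ (n + q)` of a
system `f` of Laurent polynomials which is nondegenerate in the sense of Khovanskii, with arbitrary
Newton polytopes, and `V (i + 1)` is birational to the image of `V i` under monomials
`t l = x ^ (w l)`, where `ℂ(V i) = ℂ(V (i + 1))(y)` for a monomial `y = x ^ v`. (Typical towers are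
given by triangular systems `f 1 (t, y 1) = 0`, `f 2 (t, y 1, y 2) = 0`, ...,
`f k (t, y 1, ..., y k) = 0`; then `V k` is the torus.) Let `b i` be the degree of `V i` over
`V (i + 1)`. It is assumed that there are columns for `s i = s / (b 0 ⋯ b (i - 1))` in the Fine
interior of the Newton polytopes of `V i`: for each divisor `c < b i` of `b i` an `M` with
`s i ≤ c (M + 1)` such that the `u + j v` and the `u + j v + M w l` are in the Fine interior for all
`j < c`. (If `b i` is a prime number: `u` and the `u + (s i - 1) w l` are in the Fine interior.)

Let `V 0 ⇢ X` be any dominant rational map of degree `r`, where there are columns for `s = r`;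
nothing is assumed about the map (it need not be a quotient by a group and has no relation to the
tower) or about `X`. The theorem: if `X` has geometric genus zero, in particular if `X` is
rationally connected, then `X` is unirational, and the points of all projective models of `X` with
coordinates in some finitely generated subfield of `ℂ` are dense. If `X` is defined over a number
field, then `X` is unirational over a finite extension (a standard argument, not formalised here), so
it is potentially dense: the answer to Q1 is yes for all these `X`.

Proof: if `X` has geometric genus zero and `V i ⇢ X` is a rational map then it factors through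
`V i ⇢ V (i + 1)`, because the traces to `X` of the forms `A(t) x ^ u y ^ j Res`, where `Res` is the
residue form on `V i` and `A` has degree at most `M`, are
zero. So
`X` is dominated by `V k`, and it is unirational.

`K` and `L` are the function fields of `V 0` and `X`. `GenusZero L n`: the only canonical form which is
regular at all prime divisors of all models is `0` (`Pool/Agent/R882/HT.lean`). `IsUnirational ℂ L n`:
`L` embeds in the field of rational functions in `n` variables (`Pool/Agent/W619/TW`).
`PotentiallyDense ℂ x`: for some finitely generated subfield of `ℂ` the points with coordinates in
this field are Zariski-dense on the projective variety with generic point `x`; `coords ℂ x = ⊤` says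
that the ratios of the coordinates of `x` generate `L` (`Pool/Agent/TH466/QT/Den.lean`).
-/

set_option autoImplicit false
set_option linter.overlappingInstances false

open FF Module Pool.Agent.W602.GT
open Pool.Agent.W619.TW (IsUnirational)
open Pool.Agent.TH466.QT (PotentiallyDense)
open Pool.Agent.R882.HT (Tower GenusZero)

namespace Pool.Agent.Results.MP_b62148_ag.TowersDensity

/-- **Images of towers of geometric genus zero.** Let `K` be the function field of the first variety `V` of a tower of
varieties of dimension `n ≥ 1` over a unirational variety, with columns for `r`, and let `V ⇢ X` be
a dominant rational map of degree `r`, `L` the function field of `X`. If `p_g(X) = 0` then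
`X` is unirational and potentially dense. -/
theorem result {n : ℕ} (hn : 1 ≤ n) {K : Type} [Field K] [Algebra ℂ K]
    (hK : Algebra.trdeg ℂ K = (n : ℕ))
    (L : Type) [Field L] [Algebra ℂ L] [Algebra L K] [IsScalarTower ℂ L K]
    [FiniteDimensional L K]
    (h : Tower n (fun E _ _ => IsUnirational ℂ E n) K (Module.finrank L K)) :
    GenusZero L n → IsUnirational ℂ L n ∧
      ∀ (M : ℕ) (x : Fin (M + 1) → L), x ≠ 0 → coords ℂ x = ⊤ → PotentiallyDense ℂ x :=
  fun hg => by
    have hU : IsUnirational ℂ L n :=
      (Pool.Agent.R882.HT.tower_aux hn (Pool.Agent.R882.HT.descends_unirational n) h hK L).1 rfl hg
    exact ⟨hU, fun M x hx _ => Pool.Agent.TH466.QT.dense_of_unirational hU hx⟩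

end Pool.Agent.Results.MP_b62148_ag.TowersDensity
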